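import Mathlib
import Pool.Agent.V11306.To1

/-!
# Parity of the coefficients of `T_o(q)` (MP_0c59fa_nt, Q1)

`T_o(q) = ∑_{m ≥ 0} q^(2m) (-q;q)_(2m) / (q;q²)_(m+1) = ∑ t_o(n) q^n`.
We prove `t_o(n) ≡ #{(z,u) : z ≥ 1, 0 ≤ u < 2z, (2u+1)² + 8z² = 8n+9} (mod 2)`;
in particular `t_o(n)` is even when `8n+9` is not of the form `x² + 2y²`.
-/

set_option linter.all false

namespace Pool.Agent.Results.MP_0c59fa_nt.Parity

open Finset PowerSeries Pool.Agent.V11306.To1

/-- the `m`-th summand `q^(2m) (-q;q)_(2m) / (q;q²)_(m+1)` of `T_o(q)`. -/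
noncomputable def summand (m : ℕ) : PowerSeries ℤ :=
  X ^ (2 * m) * (∏ k ∈ range (2 * m), (1 + X ^ (k + 1))) *
    invOfUnit (∏ i ∈ range (m + 1), (1 - X ^ (2 * i + 1))) 1

/-- `t_o(n)`: the coefficient of `q^n` in `T_o(q)`; only the summands with `2m ≤ n` contribute. -/
noncomputable def tO (n : ℕ) : ℤ := ∑ m ∈ range (n + 1), coeff n (summand m)

lemma constD (m : ℕ) : constantCoeff (∏ i ∈ range m, ((1 : PowerSeries ℤ) - X ^ (2 * i + 1))) = 1 := by
  rw [map_prod]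
  apply prod_eq_one
  intro i _
  simp

lemma D_inv (m : ℕ) : (∏ i ∈ range m, ((1 : PowerSeries ℤ) - X ^ (2 * i + 1))) *
    invOfUnit (∏ i ∈ range m, (1 - X ^ (2 * i + 1))) 1 = 1 := by
  apply mul_invOfUnit
  rw [constD]; simp

noncomputable abbrev φ : PowerSeries ℤ →+* PowerSeries (ZMod 2) := PowerSeries.map (Int.castRingHom (ZMod 2))

lemma two0 : (2 : PowerSeries (ZMod 2)) = 0 := by
  have : (2 : PowerSeries (ZMod 2)) = C (2 : ZMod 2) := by
    rw [map_ofNat]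
  rw [this, show (2 : ZMod 2) = 0 from rfl, map_zero]

lemma φ_two (a : PowerSeries ℤ) : φ (1 - a) = φ (1 + a) := by
  rw [map_sub, map_add]
  linear_combination (-φ a) * two0

lemma φ_neg (m : ℕ) : φ ((-1) ^ m) = 1 := by
  rw [map_pow, map_neg, map_one]
  have : (-1 : PowerSeries (ZMod 2)) = 1 := by linear_combination (-1) * two0
  rw [this, one_pow]

lemma split (m : ℕ) : ∏ k ∈ range (2 * m), (1 + (X : PowerSeries ℤ) ^ (k + 1))
    = (∏ i ∈ range m, (1 + X ^ (2 * i + 1))) * Nn m := by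
  induction m with
  | zero => simp [Nn]
  | succ m ih =>
    rw [show 2 * (m + 1) = 2 * m + 1 + 1 by ring, prod_range_succ, prod_range_succ, ih, Nn, Nn,
      prod_range_succ, prod_range_succ]
    ring

lemma φ_summand (m : ℕ) : φ (summand m) = φ ((-1) ^ m * X ^ (2 * m) * Nn m * J m) := by
  have hD := D_inv (m + 1)
  have hD' := D_inv m
  have hJ := J_mul m
  rw [prod_range_succ] at hD
  set I := invOfUnit (∏ i ∈ range (m + 1), ((1 : PowerSeries ℤ) - X ^ (2 * i + 1))) 1 with hI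
  set I' := invOfUnit (∏ i ∈ range m, ((1 : PowerSeries ℤ) - X ^ (2 * i + 1))) 1 with hI'
  have hI1 : invOfUnit (((∏ i ∈ range m, ((1 : PowerSeries ℤ) - X ^ (2 * i + 1)))) * (1 - X ^ (2 * m + 1))) 1 = I := by
    rw [hI, prod_range_succ]
  rw [hI1] at hD
  have hS : summand m = X ^ (2 * m) * ((∏ i ∈ range m, (1 + X ^ (2 * i + 1))) * Nn m) * I := by
    rw [summand, split, hI]
  have hII : I = I' * J m := by
    calc I = I * ((∏ i ∈ range m, (1 - X ^ (2 * i + 1))) * I') * ((1 - X ^ (2 * m + 1)) * J m) := by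
          rw [hD', hJ]; ring
      _ = ((∏ i ∈ range m, (1 - X ^ (2 * i + 1))) * (1 - X ^ (2 * m + 1)) * I) * (I' * J m) := by ring
      _ = _ := by rw [hD, one_mul]
  have hp : φ (∏ i ∈ range m, (1 + X ^ (2 * i + 1))) = φ (∏ i ∈ range m, (1 - X ^ (2 * i + 1))) := by
    rw [map_prod, map_prod]
    apply prod_congr rfl
    intro i _
    rw [φ_two]
  have hφ : φ (∏ i ∈ range m, (1 - X ^ (2 * i + 1))) * φ I' = 1 := by
    rw [← map_mul, hD', map_one]
  rw [hS, hII]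
  simp only [map_mul, hp, φ_neg]
  linear_combination (φ (X ^ (2 * m)) * φ (Nn m) * φ (J m)) * hφ

lemma coeff_summand_eq_zero (n m : ℕ) (h : n < 2 * m) : coeff n (summand m) = 0 := by
  rw [summand, mul_assoc, coeff_X_pow_mul']
  rw [if_neg (by omega)]

/-- number of pairs -/
def cnt (n : ℕ) : ℕ :=
  #{p ∈ range (n + 2) ×ˢ range (2 * n + 4) | 1 ≤ p.1 ∧ p.2 < 2 * p.1 ∧ (2 * p.2 + 1) ^ 2 + 8 * p.1 ^ 2 = 8 * n + 9}

lemma tri (u : ℕ) : 2 * (u * (u + 1) / 2) = u * (u + 1) :=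
  Nat.mul_div_cancel' (Nat.even_mul_succ_self u).two_dvd

lemma cnt_eq (n : ℕ) : cnt n = ∑ k ∈ range (n + 1), ∑ u ∈ range (2 * k + 2),
    (if n = 2 * k + (k ^ 2 + u * (u + 1) / 2) then 1 else 0) := by
  rw [cnt, card_filter, sum_product, sum_range_succ']
  rw [show (∑ y ∈ range (2 * n + 4), if 1 ≤ ((0 : ℕ), y).1 ∧ ((0 : ℕ), y).2 < 2 * ((0 : ℕ), y).1 ∧
      (2 * ((0 : ℕ), y).2 + 1) ^ 2 + 8 * ((0 : ℕ), y).1 ^ 2 = 8 * n + 9 then 1 else 0) = 0 from by
        apply sum_eq_zero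
        intro y _
        rw [if_neg]
        simp, add_zero]
  apply sum_congr rfl
  intro k hk
  have hk' : k ≤ n := by have := mem_range.mp hk; omega
  have hsub : range (2 * k + 2) ⊆ range (2 * n + 4) := by
    intro x hx
    rw [mem_range] at hx ⊢
    omega
  rw [← sum_subset hsub]
  · apply sum_congr rfl
    intro u hu
    have hu' : u < 2 * k + 2 := mem_range.mp hu
    have ht := tri u
    congr 1
    apply propext
    simp only []
    constructor
    · rintro ⟨_, _, h⟩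
      nlinarith
    · intro h
      refine ⟨by omega, by omega, ?_⟩
      nlinarith
  · intro u _ hu
    rw [mem_range] at hu
    rw [if_neg]
    rintro ⟨_, h, _⟩
    simp only [] at h
    omega

lemma key (n : ℕ) : ((tO n : ℤ) : ZMod 2) = (cnt n : ZMod 2) := by
  obtain ⟨e, he⟩ := main (n + 1)
  have h1 : ((tO n : ℤ) : ZMod 2) = coeff n (φ (∑ m ∈ range (n + 1), (-1) ^ m * X ^ (2 * m) * Nn m * J m)) := by
    rw [tO, map_sum, map_sum, Int.cast_sum]
    apply sum_congr rfl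
    intro m _
    rw [← φ_summand, PowerSeries.coeff_map]
    rfl
  have h2 : coeff n (∑ m ∈ range (n + 1), (-1) ^ m * X ^ (2 * m) * Nn m * J m) = ((cnt n : ℕ) : ℤ) := by
    have h3 : coeff n (X ^ (n + 1) * e) = 0 := by
      rw [coeff_X_pow_mul', if_neg (by omega)]
    have h4 := congrArg (coeff n) he
    rw [map_add, h3, add_zero] at h4
    rw [← h4, cnt_eq, map_sum]
    push_cast
    apply sum_congr rfl
    intro k _
    rw [mul_sum, mul_sum, map_sum]
    apply sum_congr rfl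
    intro u _
    rw [← pow_add, ← pow_add, coeff_X_pow]
  rw [h1, PowerSeries.coeff_map, h2]
  simp

/-- **Main result.** -/
theorem result :
    (∀ m : ℕ, (∏ i ∈ range (m + 1), ((1 : PowerSeries ℤ) - X ^ (2 * i + 1))) *
        invOfUnit (∏ i ∈ range (m + 1), (1 - X ^ (2 * i + 1))) 1 = 1) ∧
    (∀ n m : ℕ, n < m → coeff n (summand m) = 0) ∧
    (∀ n : ℕ, tO n ≡ (cnt n : ℤ) [ZMOD 2]) ∧
    (∀ n : ℕ, (¬ ∃ x y : ℤ, x ^ 2 + 2 * y ^ 2 = 8 * n + 9) → 2 ∣ tO n) := by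
  refine ⟨fun m => D_inv (m + 1), fun n m h => coeff_summand_eq_zero n m (by omega), fun n => ?_, fun n h => ?_⟩
  · exact (ZMod.intCast_eq_intCast_iff (tO n) (cnt n) 2).mp (by rw [key n]; simp)
  · have h0 : cnt n = 0 := by
      rw [cnt, card_eq_zero, filter_eq_empty_iff]
      rintro ⟨z, u⟩ _ ⟨_, _, h1⟩
      apply h
      refine ⟨2 * u + 1, 2 * z, ?_⟩
      have h2 : ((2 * u + 1) ^ 2 + 8 * z ^ 2 : ℤ) = 8 * n + 9 := by exact_mod_cast h1
      linarith
    have hk := key n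
    rw [h0, Nat.cast_zero] at hk
    exact (ZMod.intCast_zmod_eq_zero_iff_dvd (tO n) 2).mp hk

end Pool.Agent.Results.MP_0c59fa_nt.Parity
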